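import Pool.Agent.Helper60.NR.Tot

/-!
# NS: change of the exponent
-/

set_option autoImplicit false

namespace Pool.Agent.Helper60.NS

/-- `L ^ (-a e'²) ≤ K L ^ (-a e²)` if `|e - e'| ≤ D L ^ (-c)`. -/
theorem shift {c D : ℝ} (hc : 0 < c) (hD : 0 ≤ D) : ∃ K : ℝ, 1 ≤ K ∧ ∀ L a e e' : ℝ, 1 ≤ L → 0 ≤ a → a ≤ 2 → 0 ≤ e → e ≤ 2 →
    0 ≤ e' → e' ≤ 2 → |e - e'| ≤ D * L ^ (-c) → L ^ (-(a * e' ^ 2)) ≤ K * L ^ (-(a * e ^ 2)) := by
  obtain ⟨K0, hK0, h0⟩ := Pool.Agent.Helper60.NR.log_bd hc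
  refine ⟨Real.exp (8 * D * K0), Real.one_le_exp (by positivity), fun L a e e' hL ha ha2 he he2 he' he2' h => ?_⟩
  have hL0 : 0 < L := by linarith
  have h5 : 0 ≤ Real.log L := Real.log_nonneg hL
  have h1 := h0 L hL
  have h2 : L ^ (-c) * L ^ c = 1 := by
    rw [← Real.rpow_add hL0]
    simp
  have h3 : L ^ (-c) * Real.log L ≤ K0 := by
    calc L ^ (-c) * Real.log L ≤ L ^ (-c) * (K0 * L ^ c) := mul_le_mul_of_nonneg_left h1 (by positivity)
      _ = K0 * (L ^ (-c) * L ^ c) := by ring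
      _ = K0 := by rw [h2, mul_one]
  have h4 : a * e ^ 2 - a * e' ^ 2 ≤ 8 * (D * L ^ (-c)) := by
    have g1 : a * e ^ 2 - a * e' ^ 2 = a * (e + e') * (e - e') := by ring
    rw [g1]
    have g2 : a * (e + e') ≤ 8 := by nlinarith
    have g3 : 0 ≤ a * (e + e') := by positivity
    calc a * (e + e') * (e - e') ≤ a * (e + e') * |e - e'| := mul_le_mul_of_nonneg_left (le_abs_self _) g3
      _ ≤ 8 * (D * L ^ (-c)) := mul_le_mul g2 h (abs_nonneg _) (by norm_num)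
  rw [Real.rpow_def_of_pos hL0, Real.rpow_def_of_pos hL0, ← Real.exp_add]
  apply Real.exp_le_exp.2
  have h6 : Real.log L * (a * e ^ 2 - a * e' ^ 2) ≤ Real.log L * (8 * (D * L ^ (-c))) := mul_le_mul_of_nonneg_left h4 h5
  have h7 : Real.log L * (8 * (D * L ^ (-c))) = 8 * D * (L ^ (-c) * Real.log L) := by ring
  have h8 : 8 * D * (L ^ (-c) * Real.log L) ≤ 8 * D * K0 := mul_le_mul_of_nonneg_left h3 (by positivity)
  nlinarith

/-- powers of `L ≤ log T` are smaller than `T` -/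
theorem pow_le_T (n : ℕ) {L T : ℝ} (hL : 0 ≤ L) (hT : 0 < T) (h : L ≤ Real.log T) : L ^ n ≤ n.factorial * T := by
  have h1 := Real.pow_div_factorial_le_exp L hL n
  have h2 : Real.exp L ≤ T := by
    rw [← Real.le_log_iff_exp_le hT]
    exact h
  have h3 : (0:ℝ) < n.factorial := by exact_mod_cast Nat.factorial_pos n
  rw [div_le_iff₀ h3] at h1
  nlinarith

end Pool.Agent.Helper60.NS
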