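import Pool.Agent.Helper56.TX.MomT

/-!
# NS: the sharp Gaussian tail of a Dirichlet polynomial over primes
-/

set_option autoImplicit false
open MeasureTheory Set Filter Topology
open Pool.Agent.Helper57.TX

namespace Pool.Agent.Helper60.NS

/-- `m! ≤ e (m + 1) (m / e) ^ m` -/
theorem fac_le (m : ℕ) : (m.factorial : ℝ) * Real.exp m ≤ Real.exp 1 * (m + 1) * (m : ℝ) ^ m := by
  have key : ∀ n : ℕ, 1 ≤ n → (n.factorial : ℝ) * Real.exp n ≤ Real.exp 1 * n * (n : ℝ) ^ n := by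
    intro n hn
    induction n, hn using Nat.le_induction with
    | base => simp
    | succ n hn ih =>
      have hn0 : (0:ℝ) < n := by exact_mod_cast hn
      have h1 : ((n : ℝ) / (n + 1)) ^ (n + 1) ≤ Real.exp (-1) := by
        have g1 : (n : ℝ) / (n + 1) ≤ Real.exp (-(1 / (n + 1))) := by
          have g2 := Real.add_one_le_exp (-(1 / ((n : ℝ) + 1)))
          have g3 : (n : ℝ) / (n + 1) = -(1 / (n + 1)) + 1 := by
            field_simp
            ring
          rw [g3]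
          exact g2
        calc ((n : ℝ) / (n + 1)) ^ (n + 1) ≤ (Real.exp (-(1 / (n + 1)))) ^ (n + 1) :=
              pow_le_pow_left₀ (by positivity) g1 _
          _ = Real.exp (-1) := by
              rw [← Real.exp_nat_mul]
              congr 1
              push_cast
              field_simp
      have h2 : (n : ℝ) ^ (n + 1) * Real.exp 1 ≤ ((n : ℝ) + 1) ^ (n + 1) := by
        rw [div_pow, div_le_iff₀ (by positivity), Real.exp_neg] at h1
        have h3 : Real.exp 1 * ((Real.exp 1)⁻¹ * ((n : ℝ) + 1) ^ (n + 1)) = ((n : ℝ) + 1) ^ (n + 1) := by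
          rw [← mul_assoc, mul_inv_cancel₀ (Real.exp_pos 1).ne', one_mul]
        have h4 := mul_le_mul_of_nonneg_left h1 (Real.exp_pos 1).le
        rw [h3] at h4
        linarith
      rw [Nat.factorial_succ]
      push_cast
      have h5 : Real.exp ((n : ℝ) + 1) = Real.exp n * Real.exp 1 := Real.exp_add _ _
      rw [h5]
      calc ((n : ℝ) + 1) * n.factorial * (Real.exp n * Real.exp 1) = ((n : ℝ) + 1) * Real.exp 1 * (n.factorial * Real.exp n) := by ring
        _ ≤ ((n : ℝ) + 1) * Real.exp 1 * (Real.exp 1 * n * (n : ℝ) ^ n) := mul_le_mul_of_nonneg_left ih (by positivity)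
        _ = Real.exp 1 * ((n : ℝ) + 1) * ((n : ℝ) ^ (n + 1) * Real.exp 1) := by ring
        _ ≤ Real.exp 1 * ((n : ℝ) + 1) * ((n : ℝ) + 1) ^ (n + 1) := mul_le_mul_of_nonneg_left h2 (by positivity)
  rcases Nat.eq_zero_or_pos m with h | h
  · rw [h]
    simp
  · refine (key m h).trans ?_
    have h1 : (0:ℝ) ≤ (m : ℝ) ^ m := by positivity
    have h2 := Real.exp_pos 1
    nlinarith [mul_nonneg h2.le h1]

/-- The sharp tail: `exp (-(1 - κ) e² / v)`. -/
theorem dp_tail_gen : ∃ T₀ : ℝ, ∀ (κ T X v e : ℝ) (Q : Finset ℕ) (r : ℕ → ℝ), T₀ ≤ T → 0 < κ → κ ≤ 1 → 0 ≤ X →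
    (∀ p ∈ Q, p.Prime ∧ Real.log p ≤ X) → 0 < v → ∑ p ∈ Q, r p ^ 2 / (p : ℝ) ≤ v → 0 < e → e ^ 2 / v * X ≤ 1 / 4 * Real.log T →
    volume {t : ℝ | t ∈ JJ T ∧ e ≤ ‖DP Q r t‖} ≤
      ENNReal.ofReal (4 * Real.exp 2 / κ * Real.exp (-((1 - κ) * (e ^ 2 / v))) * T) := by
  obtain ⟨T₀, h⟩ := Pool.Agent.Helper56.TX.mom_tail
  refine ⟨max T₀ 1, fun κ T X v e Q r hT hκ hκ1 hX hQ hv hsum he hlen => ?_⟩
  have hT0 : T₀ ≤ T := (le_max_left _ _).trans hT
  have hT1 : 1 ≤ T := (le_max_right _ _).trans hT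
  have hTp : 0 < T := by linarith
  obtain ⟨m, hm⟩ : ∃ m : ℕ, m = ⌊e ^ 2 / v⌋₊ := ⟨_, rfl⟩
  have hm1 : (m : ℝ) ≤ e ^ 2 / v := by
    rw [hm]
    exact Nat.floor_le (by positivity)
  have hm2 : e ^ 2 / v < m + 1 := by
    rw [hm]
    exact Nat.lt_floor_add_one _
  have hL : Real.exp X ^ m ≤ T ^ (1 / 4 : ℝ) := by
    rw [← Real.exp_nat_mul, Real.rpow_def_of_pos hTp, Real.exp_le_exp]
    calc (m : ℝ) * X ≤ e ^ 2 / v * X := mul_le_mul_of_nonneg_right hm1 hX
      _ ≤ 1 / 4 * Real.log T := hlen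
      _ = Real.log T * (1 / 4) := by ring
  have h1 := h T (Real.exp X) hT0 (Real.one_le_exp hX) Q r m (fun p hp => by
      obtain ⟨g1, g2⟩ := hQ p hp
      refine ⟨g1, ?_⟩
      have hp0 : (0:ℝ) < p := by exact_mod_cast g1.pos
      rw [← Real.log_le_iff_le_exp hp0]
      exact g2) hL e he
  refine h1.trans (ENNReal.ofReal_le_ofReal (mul_le_mul_of_nonneg_right ?_ hTp.le))
  have hS0 : 0 ≤ ∑ p ∈ Q, r p ^ 2 / (p : ℝ) := Finset.sum_nonneg fun p _ => by positivity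
  have hq : (∑ p ∈ Q, r p ^ 2 / (p : ℝ)) / e ^ 2 ≤ v / e ^ 2 := div_le_div_of_nonneg_right hsum (by positivity)
  have h2 : ((∑ p ∈ Q, r p ^ 2 / (p : ℝ)) / e ^ 2) ^ m ≤ (v / e ^ 2) ^ m := pow_le_pow_left₀ (by positivity) hq m
  have h3 : (m : ℝ) ^ m * (v / e ^ 2) ^ m ≤ 1 := by
    rw [← mul_pow]
    refine pow_le_one₀ (by positivity) ?_
    calc (m : ℝ) * (v / e ^ 2) ≤ e ^ 2 / v * (v / e ^ 2) := mul_le_mul_of_nonneg_right hm1 (by positivity)
      _ = 1 := by field_simp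
  have h4 : (m.factorial : ℝ) ≤ Real.exp 1 * (m + 1) * (m : ℝ) ^ m * Real.exp (-m) := by
    have g1 := fac_le m
    have g2 : Real.exp m * Real.exp (-m) = 1 := by
      rw [← Real.exp_add]
      simp
    calc (m.factorial : ℝ) = m.factorial * (Real.exp m * Real.exp (-m)) := by rw [g2, mul_one]
      _ = (m.factorial * Real.exp m) * Real.exp (-m) := by ring
      _ ≤ _ := mul_le_mul_of_nonneg_right g1 (Real.exp_pos _).le
  have h5 : (m : ℝ) + 1 ≤ 1 / κ * Real.exp (κ * m) := by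
    have g1 := Real.add_one_le_exp (κ * m)
    have g2 : 1 / κ * (κ * m + 1) ≤ 1 / κ * Real.exp (κ * m) := mul_le_mul_of_nonneg_left g1 (by positivity)
    have g3 : 1 / κ * (κ * m + 1) = m + 1 / κ := by
      field_simp
    have g4 : 1 ≤ 1 / κ := by
      rw [le_div_iff₀ hκ]
      linarith
    linarith
  have h6 : Real.exp (κ * m) * Real.exp (-m) ≤ Real.exp 1 * Real.exp (-((1 - κ) * (e ^ 2 / v))) := by
    rw [← Real.exp_add, ← Real.exp_add, Real.exp_le_exp]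
    have g1 : (1 - κ) * (e ^ 2 / v) ≤ (1 - κ) * (m + 1) := mul_le_mul_of_nonneg_left hm2.le (by linarith)
    nlinarith
  have h7 : Real.exp 2 = Real.exp 1 * Real.exp 1 := by
    rw [← Real.exp_add]
    norm_num
  calc 4 * (m.factorial : ℝ) * ((∑ p ∈ Q, r p ^ 2 / (p : ℝ)) / e ^ 2) ^ m
      ≤ 4 * (Real.exp 1 * (m + 1) * (m : ℝ) ^ m * Real.exp (-m)) * (v / e ^ 2) ^ m := by
        refine mul_le_mul (by linarith) h2 (by positivity) (by positivity)
    _ = 4 * Real.exp 1 * (m + 1) * Real.exp (-m) * ((m : ℝ) ^ m * (v / e ^ 2) ^ m) := by ring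
    _ ≤ 4 * Real.exp 1 * (m + 1) * Real.exp (-m) * 1 := mul_le_mul_of_nonneg_left h3 (by positivity)
    _ = 4 * Real.exp 1 * Real.exp (-m) * (m + 1) := by ring
    _ ≤ 4 * Real.exp 1 * Real.exp (-m) * (1 / κ * Real.exp (κ * m)) := mul_le_mul_of_nonneg_left h5 (by positivity)
    _ = 4 * Real.exp 1 / κ * (Real.exp (κ * m) * Real.exp (-m)) := by ring
    _ ≤ 4 * Real.exp 1 / κ * (Real.exp 1 * Real.exp (-((1 - κ) * (e ^ 2 / v)))) := mul_le_mul_of_nonneg_left h6 (by positivity)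
    _ = _ := by
        rw [h7]
        ring

end Pool.Agent.Helper60.NS
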