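import Pool.Agent.Helper57.NS.Defs
import Pool.Agent.Helper60.NS.Shift
import Pool.Agent.Helper60.NS.Dp

/-!
# NS: the prime sum, upper bound
-/

set_option autoImplicit false
open MeasureTheory Set Filter Topology
open Pool.Agent.Helper93.UG (zc sp)
open Pool.Agent.Helper69.UG (XX NX near far)
open Pool.Agent.Helper57.TX (QX DP rs JJ)
open Pool.Agent.Helper57.NS

namespace Pool.Agent.Helper60.NS

/-- The tail of the Dirichlet polynomial, modulus -/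
theorem dp_norm_of {k : ℝ} (hk : 0 < k) (hk8 : k ≤ 1 / 8)
    (var_up : ∃ C T₀ : ℝ, 1 ≤ C ∧ ∀ T L : ℝ, T₀ ≤ T → C ≤ L → L ≤ Real.log T →
      ∑ p ∈ QX (Xk k T L), rk k T L p ^ 2 / p ≤ (1 + 5 * k) / Real.log L) :
    ∃ C T₀ : ℝ, 1 ≤ C ∧ ∀ T L e : ℝ, T₀ ≤ T → C ≤ L → L ≤ Real.log T → 0 < e → e ≤ 2 →
      volume {t : ℝ | t ∈ JJ T ∧ e ≤ ‖DP (QX (Xk k T L)) (rk k T L) t‖} ≤
        ENNReal.ofReal (C * L ^ (-((1 - 6 * k) * e ^ 2)) * T) := by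
  obtain ⟨Cv, Tv, hCv, hv⟩ := var_up
  obtain ⟨Td, hd⟩ := dp_tail_gen
  obtain ⟨K, hK, hlog⟩ := Pool.Agent.Helper60.NR.log_bd (a := k / 2) (by positivity)
  refine ⟨max (max Cv (4 * Real.exp 2 / k)) (max 64 ((16 * K) ^ (2 / k))), max (max Tv Td) 3, ?_, ?_⟩
  · exact le_trans (by norm_num : (1 : ℝ) ≤ 64) ((le_max_left _ _).trans (le_max_right _ _))
  intro T L e hT hL hLT he he2
  have hTv : Tv ≤ T := ((le_max_left _ _).trans (le_max_left _ _)).trans hT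
  have hTd : Td ≤ T := ((le_max_right _ _).trans (le_max_left _ _)).trans hT
  have hT3 : 3 ≤ T := (le_max_right _ _).trans hT
  have hT0 : 0 < T := by linarith
  obtain ⟨CC, hCC⟩ : ∃ CC : ℝ, CC = max (max Cv (4 * Real.exp 2 / k)) (max 64 ((16 * K) ^ (2 / k))) := ⟨_, rfl⟩
  rw [← hCC] at hL ⊢
  have hC1 : 4 * Real.exp 2 / k ≤ CC := hCC ▸ (le_max_right _ _).trans (le_max_left _ _)
  have hLv : Cv ≤ L := (hCC ▸ (le_max_left _ _).trans (le_max_left _ _)).trans hL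
  have hL64 : 64 ≤ L := (hCC ▸ (le_max_left _ _).trans (le_max_right _ _)).trans hL
  have hLK : (16 * K) ^ (2 / k) ≤ L := (hCC ▸ (le_max_right _ _).trans (le_max_right _ _)).trans hL
  have hL1 : 1 ≤ L := by linarith
  have hL0 : 0 < L := by linarith
  have hlT : 0 < Real.log T := by linarith
  have hlL : 0 < Real.log L := Real.log_pos (by linarith)
  obtain ⟨v, hvd⟩ : ∃ v : ℝ, v = (1 + 5 * k) / Real.log L := ⟨_, rfl⟩
  have hv0 : 0 < v := by rw [hvd]; positivity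
  have hX : 0 ≤ Xk k T L := by
    unfold Xk
    positivity
  have hlen : e ^ 2 / v * Xk k T L ≤ 1 / 4 * Real.log T := by
    have h1 : e ^ 2 / v ≤ 4 * Real.log L := by
      rw [hvd, div_div_eq_mul_div, div_le_iff₀ (by positivity)]
      have g1 : e ^ 2 ≤ 4 := by nlinarith
      have g2 : e ^ 2 * Real.log L ≤ 4 * Real.log L := mul_le_mul_of_nonneg_right g1 hlL.le
      nlinarith [mul_pos hk hlL]
    have h2 := hlog L hL1
    have h3 : 16 * K ≤ L ^ (k / 2) := by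
      have g1 : 16 * K = ((16 * K) ^ (2 / k)) ^ (k / 2) := by
        rw [← Real.rpow_mul (by positivity)]
        have : 2 / k * (k / 2) = 1 := by field_simp
        rw [this, Real.rpow_one]
      rw [g1]
      exact Real.rpow_le_rpow (Real.rpow_nonneg (by positivity) _) hLK (by positivity)
    have h4 : L ^ (k / 2) * L ^ (k / 2) = L ^ k := by
      rw [← Real.rpow_add hL0]
      congr 1
      ring
    have hLk : 0 < L ^ (k / 2) := Real.rpow_pos_of_pos hL0 _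
    unfold Xk
    rw [← h4]
    calc e ^ 2 / v * (Real.log T / (L ^ (k / 2) * L ^ (k / 2))) ≤ 4 * Real.log L * (Real.log T / (L ^ (k / 2) * L ^ (k / 2))) :=
          mul_le_mul_of_nonneg_right h1 (by positivity)
      _ ≤ 4 * (K * L ^ (k / 2)) * (Real.log T / (L ^ (k / 2) * L ^ (k / 2))) :=
          mul_le_mul_of_nonneg_right (by linarith) (by positivity)
      _ = 4 * K * Real.log T / L ^ (k / 2) := by field_simp
      _ ≤ 1 / 4 * Real.log T := by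
          rw [div_le_iff₀ hLk]
          nlinarith
  have h1 := hd k T (Xk k T L) v e (QX (Xk k T L)) (rk k T L) hTd hk (by linarith) hX (fun p hp => by
    unfold QX at hp
    obtain ⟨g1, g2⟩ := Finset.mem_filter.1 hp
    refine ⟨g2, ?_⟩
    have hp0 : (0:ℝ) < p := by exact_mod_cast g2.pos
    rw [Real.log_le_iff_le_exp hp0]
    have g3 : p ≤ ⌊Real.exp (Xk k T L)⌋₊ := by
      rw [Finset.mem_range] at g1
      omega
    exact (Nat.le_floor_iff (Real.exp_pos _).le).1 g3) hv0 (by rw [hvd]; exact hv T L hTv hLv hLT) he hlen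
  refine h1.trans (ENNReal.ofReal_le_ofReal (mul_le_mul_of_nonneg_right ?_ hT0.le))
  have h5 : Real.exp (-((1 - k) * (e ^ 2 / v))) ≤ L ^ (-((1 - 6 * k) * e ^ 2)) := by
    rw [Real.rpow_def_of_pos hL0, Real.exp_le_exp]
    have h6 : e ^ 2 / v = e ^ 2 * Real.log L / (1 + 5 * k) := by
      rw [hvd]
      field_simp
    have h7 : (1 - 6 * k) * e ^ 2 * Real.log L ≤ (1 - k) * (e ^ 2 / v) := by
      rw [h6, ← mul_div_assoc, le_div_iff₀ (by positivity)]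
      have h8 : 0 ≤ e ^ 2 * Real.log L := by positivity
      have h9 : (1 - 6 * k) * (1 + 5 * k) ≤ 1 - k := by nlinarith [mul_pos hk hk]
      nlinarith [mul_le_mul_of_nonneg_right h9 h8]
    linarith
  calc 4 * Real.exp 2 / k * Real.exp (-((1 - k) * (e ^ 2 / v))) ≤ 4 * Real.exp 2 / k * L ^ (-((1 - 6 * k) * e ^ 2)) :=
        mul_le_mul_of_nonneg_left h5 (by positivity)
    _ ≤ CC * L ^ (-((1 - 6 * k) * e ^ 2)) := mul_le_mul_of_nonneg_right hC1 (by positivity)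

/-- `D3` from `sl_dp` and the tail of the Dirichlet polynomial -/
theorem prime_up_aux {k : ℝ} (hk : 0 < k) (hk8 : k ≤ 1 / 8)
    (sl_dp : ∃ c C T₀ : ℝ, 0 < c ∧ 1 ≤ C ∧ ∀ T L : ℝ, T₀ ≤ T → C ≤ L → L ≤ Real.log T → ∃ E : Set ℝ,
      volume E ≤ ENNReal.ofReal (C * L ^ (-4 : ℝ) * T) ∧ ∀ t ∈ Icc (T / 2) (3 * T), t ∉ E → ∀ u : ℝ, |u - t| ≤ sp T →
        |Sk k T L u - (DP (QX (Xk k T L)) (rk k T L) t).re| ≤ C * L ^ (-c))
    (dp_up : ∃ C T₀ : ℝ, 1 ≤ C ∧ ∀ T L e : ℝ, T₀ ≤ T → C ≤ L → L ≤ Real.log T → 0 < e → e ≤ 2 →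
      volume {t : ℝ | t ∈ JJ T ∧ e ≤ ‖DP (QX (Xk k T L)) (rk k T L) t‖} ≤
        ENNReal.ofReal (C * L ^ (-((1 - 6 * k) * e ^ 2)) * T)) :
    ∃ C T₀ : ℝ, 1 ≤ C ∧ ∀ T L e : ℝ, T₀ ≤ T → C ≤ L → L ≤ Real.log T →
      0 < e → e ≤ 2 → Thick T (C * (L ^ (-((1 - 6 * k) * e ^ 2)) + L ^ (-4 : ℝ))) e (Sk k T L) := by
  obtain ⟨c, C1, T1, hc, hC1, h1⟩ := sl_dp
  obtain ⟨C2, T2, hC2, h2⟩ := dp_up
  obtain ⟨K, hK, hsh⟩ := shift (c := c) (D := 2 * C1) hc (by linarith)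
  refine ⟨max (max C1 C2) (max (C2 * K) (3 * K)), max (max T1 T2) 3, hC1.trans ((le_max_left _ _).trans (le_max_left _ _)), ?_⟩
  intro T L e hT hL hLT he he2
  have hT1 : T1 ≤ T := ((le_max_left _ _).trans (le_max_left _ _)).trans hT
  have hT2 : T2 ≤ T := ((le_max_right _ _).trans (le_max_left _ _)).trans hT
  have hT3 : 3 ≤ T := (le_max_right _ _).trans hT
  have hT0 : 0 < T := by linarith
  obtain ⟨CC, hCC⟩ : ∃ CC : ℝ, CC = max (max C1 C2) (max (C2 * K) (3 * K)) := ⟨_, rfl⟩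
  rw [← hCC] at hL ⊢
  have g1 : C1 ≤ CC := hCC ▸ (le_max_left _ _).trans (le_max_left _ _)
  have g2 : C2 ≤ CC := hCC ▸ (le_max_right _ _).trans (le_max_left _ _)
  have g3 : C2 * K ≤ CC := hCC ▸ (le_max_left _ _).trans (le_max_right _ _)
  have g4 : 3 * K ≤ CC := hCC ▸ (le_max_right _ _).trans (le_max_right _ _)
  have hL1 : 1 ≤ L := hC1.trans (g1.trans hL)
  have hL0 : 0 < L := by linarith
  have ha0 : 0 ≤ 1 - 6 * k := by linarith
  have ha2 : 1 - 6 * k ≤ 2 := by linarith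
  have hp0 : 0 < L ^ (-((1 - 6 * k) * e ^ 2)) := Real.rpow_pos_of_pos hL0 _
  have hp4 : 0 < L ^ (-4 : ℝ) := Real.rpow_pos_of_pos hL0 _
  have hc0 : 0 < L ^ (-c) := Real.rpow_pos_of_pos hL0 _
  by_cases hsmall : e ≤ 2 * C1 * L ^ (-c)
  · refine ⟨Icc (T / 2) (3 * T), ?_, fun t ht _ _ _ => ht⟩
    rw [Real.volume_Icc]
    apply ENNReal.ofReal_le_ofReal
    have h3 := hsh L (1 - 6 * k) e 0 hL1 ha0 ha2 he.le he2 le_rfl (by norm_num) (by rw [sub_zero, abs_of_pos he]; exact hsmall)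
    have h4 : L ^ (-((1 - 6 * k) * (0:ℝ) ^ 2)) = 1 := by
      norm_num
    rw [h4] at h3
    have h5 : 3 * 1 ≤ 3 * (K * L ^ (-((1 - 6 * k) * e ^ 2))) := by linarith
    have h6 : 3 * (K * L ^ (-((1 - 6 * k) * e ^ 2))) ≤ CC * (L ^ (-((1 - 6 * k) * e ^ 2)) + L ^ (-4 : ℝ)) := by
      calc 3 * (K * L ^ (-((1 - 6 * k) * e ^ 2))) = 3 * K * L ^ (-((1 - 6 * k) * e ^ 2)) := by ring
        _ ≤ CC * L ^ (-((1 - 6 * k) * e ^ 2)) := mul_le_mul_of_nonneg_right g4 hp0.le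
        _ ≤ _ := mul_le_mul_of_nonneg_left (by linarith) (by linarith)
    nlinarith
  · rw [not_le] at hsmall
    obtain ⟨E, hE1, hE2⟩ := h1 T L hT1 (g1.trans hL) hLT
    obtain ⟨e', he'⟩ : ∃ e' : ℝ, e' = e - C1 * L ^ (-c) := ⟨_, rfl⟩
    have hCL : 0 < C1 * L ^ (-c) := by positivity
    have he'0 : 0 < e' := by rw [he']; linarith
    have he'2 : e' ≤ 2 := by rw [he']; linarith
    have hdp := h2 T L e' hT2 (g2.trans hL) hLT he'0 he'2
    have h3 := hsh L (1 - 6 * k) e e' hL1 ha0 ha2 he.le he2 he'0.le he'2 (by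
      rw [he', show e - (e - C1 * L ^ (-c)) = C1 * L ^ (-c) by ring, abs_of_pos hCL]
      linarith)
    refine ⟨E ∪ {t : ℝ | t ∈ JJ T ∧ e' ≤ ‖DP (QX (Xk k T L)) (rk k T L) t‖}, ?_, ?_⟩
    · refine (measure_union_le _ _).trans ((add_le_add hE1 hdp).trans ?_)
      rw [← ENNReal.ofReal_add (by positivity) (by positivity)]
      apply ENNReal.ofReal_le_ofReal
      have h4 : C2 * L ^ (-((1 - 6 * k) * e' ^ 2)) ≤ CC * L ^ (-((1 - 6 * k) * e ^ 2)) := by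
        calc C2 * L ^ (-((1 - 6 * k) * e' ^ 2)) ≤ C2 * (K * L ^ (-((1 - 6 * k) * e ^ 2))) :=
              mul_le_mul_of_nonneg_left h3 (by linarith)
          _ = C2 * K * L ^ (-((1 - 6 * k) * e ^ 2)) := by ring
          _ ≤ _ := mul_le_mul_of_nonneg_right g3 hp0.le
      have h5 : C1 * L ^ (-4 : ℝ) ≤ CC * L ^ (-4 : ℝ) := mul_le_mul_of_nonneg_right g1 hp4.le
      calc C1 * L ^ (-4 : ℝ) * T + C2 * L ^ (-((1 - 6 * k) * e' ^ 2)) * T =
            (C1 * L ^ (-4 : ℝ) + C2 * L ^ (-((1 - 6 * k) * e' ^ 2))) * T := by ring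
        _ ≤ (CC * L ^ (-4 : ℝ) + CC * L ^ (-((1 - 6 * k) * e ^ 2))) * T := mul_le_mul_of_nonneg_right (by linarith) hT0.le
        _ = _ := by ring
    · intro t ht u hu hbad
      by_contra hnot
      have hnE : t ∉ E := fun h => hnot (Or.inl h)
      have h4 := hE2 t ht hnE u hu
      have htJ : t ∈ JJ T := ⟨ht.1, by linarith [ht.2]⟩
      have h5 : ¬ e' ≤ ‖DP (QX (Xk k T L)) (rk k T L) t‖ := fun h => hnot (Or.inr ⟨htJ, h⟩)
      rw [not_le] at h5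
      have h6 := Complex.abs_re_le_norm (DP (QX (Xk k T L)) (rk k T L) t)
      have h7 : |Sk k T L u| ≤ |Sk k T L u - (DP (QX (Xk k T L)) (rk k T L) t).re| + |(DP (QX (Xk k T L)) (rk k T L) t).re| := by
        have : Sk k T L u = (Sk k T L u - (DP (QX (Xk k T L)) (rk k T L) t).re) + (DP (QX (Xk k T L)) (rk k T L) t).re := by ring
        calc |Sk k T L u| = |(Sk k T L u - (DP (QX (Xk k T L)) (rk k T L) t).re) + (DP (QX (Xk k T L)) (rk k T L) t).re| := by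
              rw [← this]
          _ ≤ _ := abs_add_le _ _
      rw [he'] at h5
      linarith

/-- `D2'`: the tail of the real part -/
theorem dp_up_of {k : ℝ} (hk : 0 < k) (hk8 : k ≤ 1 / 8)
    (var_up : ∃ C T₀ : ℝ, 1 ≤ C ∧ ∀ T L : ℝ, T₀ ≤ T → C ≤ L → L ≤ Real.log T →
      ∑ p ∈ QX (Xk k T L), rk k T L p ^ 2 / p ≤ (1 + 5 * k) / Real.log L) :
    ∃ C T₀ : ℝ, 1 ≤ C ∧ ∀ T L e : ℝ, T₀ ≤ T → C ≤ L → L ≤ Real.log T →
      0 < e → e ≤ 2 → volume {t : ℝ | t ∈ Icc (T / 2) (3 * T) ∧ e < |(DP (QX (Xk k T L)) (rk k T L) t).re|} ≤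
        ENNReal.ofReal (C * L ^ (-((1 - 6 * k) * e ^ 2)) * T) := by
  obtain ⟨C, T₀, hC, h⟩ := dp_norm_of hk hk8 var_up
  refine ⟨C, max T₀ 1, hC, fun T L e hT hL hLT he he2 => (measure_mono ?_).trans (h T L e ((le_max_left _ _).trans hT) hL hLT he he2)⟩
  intro t ht
  have hT1 : 1 ≤ T := (le_max_right _ _).trans hT
  exact ⟨⟨ht.1.1, by linarith [ht.1.2]⟩, ht.2.le.trans (Complex.abs_re_le_norm _)⟩

/-- `D3` from `sl_dp` and `var_up` -/
theorem prime_up_of {k : ℝ} (hk : 0 < k) (hk8 : k ≤ 1 / 8)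
    (sl_dp : ∃ c C T₀ : ℝ, 0 < c ∧ 1 ≤ C ∧ ∀ T L : ℝ, T₀ ≤ T → C ≤ L → L ≤ Real.log T → ∃ E : Set ℝ,
      volume E ≤ ENNReal.ofReal (C * L ^ (-4 : ℝ) * T) ∧ ∀ t ∈ Icc (T / 2) (3 * T), t ∉ E → ∀ u : ℝ, |u - t| ≤ sp T →
        |Sk k T L u - (DP (QX (Xk k T L)) (rk k T L) t).re| ≤ C * L ^ (-c))
    (var_up : ∃ C T₀ : ℝ, 1 ≤ C ∧ ∀ T L : ℝ, T₀ ≤ T → C ≤ L → L ≤ Real.log T →
      ∑ p ∈ QX (Xk k T L), rk k T L p ^ 2 / p ≤ (1 + 5 * k) / Real.log L) :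
    ∃ C T₀ : ℝ, 1 ≤ C ∧ ∀ T L e : ℝ, T₀ ≤ T → C ≤ L → L ≤ Real.log T →
      0 < e → e ≤ 2 → Thick T (C * (L ^ (-((1 - 6 * k) * e ^ 2)) + L ^ (-4 : ℝ))) e (Sk k T L) :=
  prime_up_aux hk hk8 sl_dp (dp_norm_of hk hk8 var_up)

end Pool.Agent.Helper60.NS
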