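import Pool.Agent.Helper60.NS.Prime
import Pool.Agent.Helper82.NS.Fin

/-!
# NS: the prime sum, upper bound, without hypotheses
-/

set_option autoImplicit false
open MeasureTheory Set
open Pool.Agent.Helper57.TX (QX DP)
open Pool.Agent.Helper57.NS

namespace Pool.Agent.Helper60.NS

/-- D2' -/
theorem dp_up {k : ℝ} (hk : 0 < k) (hk8 : k ≤ 1 / 8) : ∃ C T₀ : ℝ, 1 ≤ C ∧ ∀ T L e : ℝ, T₀ ≤ T → C ≤ L → L ≤ Real.log T →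
    0 < e → e ≤ 2 → volume {t : ℝ | t ∈ Icc (T / 2) (3 * T) ∧ e < |(DP (QX (Xk k T L)) (rk k T L) t).re|} ≤
      ENNReal.ofReal (C * L ^ (-((1 - 6 * k) * e ^ 2)) * T) :=
  dp_up_of hk hk8 (Pool.Agent.Helper82.NS.var_up hk hk8)

/-- D3 -/
theorem prime_up {k : ℝ} (hk : 0 < k) (hk8 : k ≤ 1 / 8) : ∃ C T₀ : ℝ, 1 ≤ C ∧ ∀ T L e : ℝ, T₀ ≤ T → C ≤ L → L ≤ Real.log T →
    0 < e → e ≤ 2 → Thick T (C * (L ^ (-((1 - 6 * k) * e ^ 2)) + L ^ (-4 : ℝ))) e (Sk k T L) :=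
  prime_up_of hk hk8 (Pool.Agent.Helper82.NS.sl_dp hk hk8) (Pool.Agent.Helper82.NS.var_up hk hk8)

end Pool.Agent.Helper60.NS
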