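import Pool.Agent.Helper57.NS.Defs
import Pool.Agent.Helper60.NS.Shift

/-!
# NS: the linear statistic against the prime sum
-/

set_option autoImplicit false
open MeasureTheory Set Filter Topology
open Pool.Agent.Helper57.Zeta Pool.Agent.Helper57.LH Pool.Agent.Helper57.ED
open Pool.Agent.Helper54.LG (za zb qk SS MM)
open Pool.Agent.Helper93.UG (zc sp)
open Pool.Agent.Helper69.UG (XX NX near far)
open Pool.Agent.Helper57.TX (QX DP rs)
open Pool.Agent.Helper57.NS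

namespace Pool.Agent.Helper60.NS

theorem tot_thick_of {k : ℝ} (hk : 0 < k) (hk8 : k ≤ 1 / 8)
    (card_bd : ∃ C : ℝ, 1 ≤ C ∧ ∀ L : ℝ, C ≤ L →
      |((Sc k L).card : ℝ) * Real.log (1 + k) - (1 - 2 * k) * Real.log L| ≤ Real.log (1 + k))
    (loss_thick : ∀ B : ℕ, ∃ C M₀ T₀ : ℝ, 0 < C ∧ 1 ≤ M₀ ∧ ∀ T M : ℝ, T₀ ≤ T → M₀ ≤ M → M ≤ Real.log T →
      Thick T (C / M ^ B) (C / M ^ (1 / 4 : ℝ)) (fun u => NX (XX T M) u - (MM (XX T M) u - SS (XX T M) u)))
    (mm_main : ∃ C T₀ : ℝ, 0 < C ∧ ∀ T M t : ℝ, T₀ ≤ T → 1 ≤ M → M ≤ Real.log T → t ∈ Pool.Agent.Helper57.TX.JJ T →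
      |MM (XX T M) t - M| ≤ C * (M / Real.log T))
    (tot_eq : ∀ {T L t : ℝ}, 1 < T → Tk k T L t = wk k L * ∑ j ∈ Sc k L, NX (XX T ((1 + k) ^ j)) t) :
    ∃ c C T₀ : ℝ, 0 < c ∧ 1 ≤ C ∧ ∀ T L : ℝ, T₀ ≤ T → C ≤ L →
      L ≤ Real.log T → Thick T (C * L ^ (-4 : ℝ)) (C * L ^ (-c)) (fun u => Tk k T L u - (Mk k L - Sk k T L u)) := by
  classical
  obtain ⟨Cc, hCc, hcard⟩ := card_bd
  obtain ⟨Cm, Tm, hCm, hmm⟩ := mm_main
  obtain ⟨B, hB⟩ : ∃ B : ℕ, 5 / k ≤ B := exists_nat_ge _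
  obtain ⟨Cl, M₀, Tl, hCl, hM₀, hloss⟩ := loss_thick B
  have hlk : 0 < Real.log (1 + k) := Real.log_pos (by linarith)
  obtain ⟨K, hK⟩ : ∃ K : ℝ, K = 2 / Real.log (1 + k) := ⟨_, rfl⟩
  have hK0 : 0 < K := by rw [hK]; positivity
  obtain ⟨Lc, hLc⟩ : ∃ Lc : ℝ, Lc = Real.exp (4 * Real.log (1 + k)) := ⟨_, rfl⟩
  refine ⟨k / 4, max (max (K * Cl + 168) (3 / 2 * (Cl + Cm))) (max (max Cc Lc) (max 64 (M₀ ^ (1 / k)))), max (max Tm Tl) 100,
    by positivity, ?_, ?_⟩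
  · exact le_trans (by norm_num : (1 : ℝ) ≤ 64) ((le_max_left _ _).trans ((le_max_right _ _).trans (le_max_right _ _)))
  intro T L hT hL hLT
  have hTm : Tm ≤ T := ((le_max_left _ _).trans (le_max_left _ _)).trans hT
  have hTl : Tl ≤ T := ((le_max_right _ _).trans (le_max_left _ _)).trans hT
  have hT100 : 100 ≤ T := (le_max_right _ _).trans hT
  have hT0 : 0 < T := by linarith
  obtain ⟨CC, hCC⟩ : ∃ CC : ℝ, CC = max (max (K * Cl + 168) (3 / 2 * (Cl + Cm))) (max (max Cc Lc) (max 64 (M₀ ^ (1 / k)))) := ⟨_, rfl⟩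
  rw [← hCC] at hL ⊢
  have hC1 : K * Cl + 168 ≤ CC := hCC ▸ (le_max_left _ _).trans (le_max_left _ _)
  have hC2 : 3 / 2 * (Cl + Cm) ≤ CC := hCC ▸ (le_max_right _ _).trans (le_max_left _ _)
  have hLc1 : Cc ≤ L := (hCC ▸ (le_max_left _ _).trans ((le_max_left _ _).trans (le_max_right _ _))).trans hL
  have hLc2 : Lc ≤ L := (hCC ▸ (le_max_right _ _).trans ((le_max_left _ _).trans (le_max_right _ _))).trans hL
  have hL64 : 64 ≤ L := (hCC ▸ (le_max_left _ _).trans ((le_max_right _ _).trans (le_max_right _ _))).trans hL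
  have hLM : M₀ ^ (1 / k) ≤ L := (hCC ▸ (le_max_right _ _).trans ((le_max_right _ _).trans (le_max_right _ _))).trans hL
  have hL1 : 1 ≤ L := by linarith
  have hL0 : 0 < L := by linarith
  have hlT : 0 < Real.log T := by linarith
  have hlogL : 4 * Real.log (1 + k) ≤ Real.log L := by
    rw [Real.le_log_iff_exp_le hL0, ← hLc]
    exact hLc2
  have hcd := abs_le.1 (hcard L hLc1)
  -- the number of scales
  have hlogL0 : 0 < Real.log L := Real.log_pos (by linarith)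
  have hJ0 : 0 < ((Sc k L).card : ℝ) := by
    by_contra hneg
    have h1 : ((Sc k L).card : ℝ) = 0 := le_antisymm (not_lt.1 hneg) (Nat.cast_nonneg _)
    rw [h1, zero_mul] at hcd
    have h2 : (1 - 2 * k) * Real.log L ≥ 3 / 4 * Real.log L := by nlinarith
    linarith [hcd.1]
  have hJK : ((Sc k L).card : ℝ) ≤ K * L := by
    have h1 : ((Sc k L).card : ℝ) * Real.log (1 + k) ≤ 2 * L := by
      have h2 : Real.log L ≤ L := (Real.log_le_sub_one_of_pos hL0).trans (by linarith)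
      have h3 : (1 - 2 * k) * Real.log L ≤ 1 * Real.log L := mul_le_mul_of_nonneg_right (by linarith) hlogL0.le
      linarith [hcd.2]
    have h4 : ((Sc k L).card : ℝ) ≤ 2 * L / Real.log (1 + k) := by
      rw [le_div_iff₀ hlk]
      exact h1
    refine h4.trans (le_of_eq ?_)
    rw [hK]
    ring
  have hwJ : wk k L * (Sc k L).card = 3 / 2 := by
    unfold wk
    field_simp
  have hwJ0 : 0 < wk k L := by unfold wk; positivity
  have hmem : ∀ j ∈ Sc k L, L ^ k ≤ (1 + k) ^ j ∧ (1 + k) ^ j ≤ L ^ (1 - k) := by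
    intro j hj
    unfold Sc at hj
    exact (Finset.mem_filter.1 hj).2
  have hM : ∀ j ∈ Sc k L, M₀ ≤ (1 + k) ^ j ∧ (1 + k) ^ j ≤ Real.log T ∧ 1 ≤ (1 + k) ^ j := by
    intro j hj
    obtain ⟨h1, h2⟩ := hmem j hj
    refine ⟨?_, ?_, one_le_pow₀ (by linarith)⟩
    · refine le_trans ?_ h1
      have h3 : M₀ = (M₀ ^ (1 / k)) ^ k := by
        rw [← Real.rpow_mul (by linarith)]
        have : 1 / k * k = 1 := by field_simp
        rw [this, Real.rpow_one]
      rw [h3]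
      exact Real.rpow_le_rpow (Real.rpow_nonneg (by linarith) _) hLM hk.le
    · refine h2.trans ?_
      calc L ^ (1 - k) ≤ L ^ (1 : ℝ) := Real.rpow_le_rpow_of_exponent_le hL1 (by linarith)
        _ = L := Real.rpow_one L
        _ ≤ _ := hLT
  have hex : ∀ j : ℕ, ∃ E : Set ℝ, j ∈ Sc k L → volume E ≤ ENNReal.ofReal (Cl / ((1 + k) ^ j) ^ B * T) ∧
      ∀ t ∈ Icc (T / 2) (3 * T), ∀ u : ℝ, |u - t| ≤ sp T → Cl / ((1 + k) ^ j) ^ (1 / 4 : ℝ) <
        |NX (XX T ((1 + k) ^ j)) u - (MM (XX T ((1 + k) ^ j)) u - SS (XX T ((1 + k) ^ j)) u)| → t ∈ E := by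
    intro j
    by_cases hj : j ∈ Sc k L
    · obtain ⟨E, h1, h2⟩ := hloss T ((1 + k) ^ j) hTl (hM j hj).1 (hM j hj).2.1
      exact ⟨E, fun _ => ⟨h1, h2⟩⟩
    · exact ⟨∅, fun h => absurd h hj⟩
  choose E hE using hex
  have hLkpos : 0 < L ^ k := Real.rpow_pos_of_pos hL0 _
  have hE1 : ∀ j ∈ Sc k L, Cl / ((1 + k) ^ j) ^ (1 / 4 : ℝ) ≤ Cl * L ^ (-(k / 4)) := by
    intro j hj
    have h1 := (hmem j hj).1
    have h0 : 0 < (1 + k) ^ j := by positivity
    rw [div_eq_mul_inv]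
    refine mul_le_mul_of_nonneg_left ?_ hCl.le
    rw [← Real.rpow_neg h0.le]
    calc ((1 + k) ^ j) ^ (-(1 / 4) : ℝ) ≤ (L ^ k) ^ (-(1 / 4) : ℝ) :=
          Real.rpow_le_rpow_of_nonpos hLkpos h1 (by norm_num)
      _ = L ^ (-(k / 4)) := by
          rw [← Real.rpow_mul hL0.le]
          congr 1
          ring
  have hE2 : ∀ j ∈ Sc k L, Cl / ((1 + k) ^ j) ^ B ≤ Cl * L ^ (-5 : ℝ) := by
    intro j hj
    have h1 := (hmem j hj).1
    rw [div_eq_mul_inv]
    refine mul_le_mul_of_nonneg_left ?_ hCl.le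
    have h2 : L ^ (5 : ℝ) ≤ ((1 + k) ^ j) ^ B := by
      calc L ^ (5 : ℝ) ≤ L ^ (k * B) := by
            apply Real.rpow_le_rpow_of_exponent_le hL1
            rw [div_le_iff₀ hk] at hB
            linarith
        _ = (L ^ k) ^ B := by rw [Real.rpow_mul hL0.le, Real.rpow_natCast]
        _ ≤ _ := pow_le_pow_left₀ hLkpos.le h1 _
    calc (((1 + k) ^ j) ^ B)⁻¹ ≤ (L ^ (5 : ℝ))⁻¹ := inv_anti₀ (by positivity) h2
      _ = L ^ (-5 : ℝ) := by rw [← Real.rpow_neg hL0.le]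
  have hsp0 : 0 < sp T := by
    unfold sp
    have := Real.pi_pos
    positivity
  have hsp7 : sp T ≤ 7 := by
    unfold sp
    rw [div_le_iff₀ hlT]
    nlinarith [Real.pi_lt_d2]
  refine ⟨(⋃ j ∈ Sc k L, E j) ∪ Icc (T / 2) (T / 2 + sp T), ?_, ?_⟩
  · -- the measure
    have h1 : volume (⋃ j ∈ Sc k L, E j) ≤ ENNReal.ofReal (K * Cl * L ^ (-4 : ℝ) * T) := by
      refine (measure_biUnion_finset_le _ _).trans ?_
      calc ∑ j ∈ Sc k L, volume (E j) ≤ ∑ _j ∈ Sc k L, ENNReal.ofReal (Cl * L ^ (-5 : ℝ) * T) := by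
            refine Finset.sum_le_sum fun j hj => ((hE j hj).1).trans (ENNReal.ofReal_le_ofReal ?_)
            exact mul_le_mul_of_nonneg_right (hE2 j hj) hT0.le
        _ = ENNReal.ofReal ((Sc k L).card * (Cl * L ^ (-5 : ℝ) * T)) := by
            rw [Finset.sum_const, nsmul_eq_mul, ENNReal.ofReal_mul (Nat.cast_nonneg (Sc k L).card), ENNReal.ofReal_natCast]
        _ ≤ _ := by
            apply ENNReal.ofReal_le_ofReal
            have h3 : L * L ^ (-5 : ℝ) = L ^ (-4 : ℝ) := by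
              nth_rewrite 1 [← Real.rpow_one L]
              rw [← Real.rpow_add hL0]
              norm_num
            calc ((Sc k L).card : ℝ) * (Cl * L ^ (-5 : ℝ) * T) ≤ (K * L) * (Cl * L ^ (-5 : ℝ) * T) :=
                  mul_le_mul_of_nonneg_right hJK (by positivity)
              _ = K * Cl * (L * L ^ (-5 : ℝ)) * T := by ring
              _ = _ := by rw [h3]
    have h0 : volume (Icc (T / 2) (T / 2 + sp T)) ≤ ENNReal.ofReal (168 * L ^ (-4 : ℝ) * T) := by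
      rw [Real.volume_Icc]
      apply ENNReal.ofReal_le_ofReal
      have g1 := pow_le_T 4 hL0.le hT0 hLT
      have g2 : ((Nat.factorial 4 : ℕ) : ℝ) = 24 := by norm_num [Nat.factorial]
      rw [g2] at g1
      have g3 : L ^ (-4 : ℝ) * L ^ 4 = 1 := by
        rw [← Real.rpow_natCast L 4, ← Real.rpow_add hL0]
        norm_num
      have g4 : L ^ (-4 : ℝ) * L ^ 4 ≤ L ^ (-4 : ℝ) * (24 * T) := mul_le_mul_of_nonneg_left g1 (by positivity)
      rw [g3] at g4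
      calc T / 2 + sp T - T / 2 = sp T := by ring
        _ ≤ 7 * 1 := by linarith
        _ ≤ 7 * (L ^ (-4 : ℝ) * (24 * T)) := mul_le_mul_of_nonneg_left g4 (by norm_num)
        _ = _ := by ring
    refine (measure_union_le _ _).trans ((add_le_add h1 h0).trans ?_)
    rw [← ENNReal.ofReal_add (by positivity) (by positivity)]
    apply ENNReal.ofReal_le_ofReal
    calc K * Cl * L ^ (-4 : ℝ) * T + 168 * L ^ (-4 : ℝ) * T = (K * Cl + 168) * L ^ (-4 : ℝ) * T := by ring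
      _ ≤ CC * L ^ (-4 : ℝ) * T := by gcongr
  · -- the inequality
    intro t ht u hu hbad
    by_contra hnot
    have hnS : t ∉ Icc (T / 2) (T / 2 + sp T) := fun h => hnot (Or.inr h)
    have hnE : ∀ j ∈ Sc k L, t ∉ E j := by
      intro j hj h
      exact hnot (Or.inl (mem_iUnion₂.2 ⟨j, hj, h⟩))
    have hu' := abs_le.1 hu
    have huJ : u ∈ Pool.Agent.Helper57.TX.JJ T := by
      have h1 : T / 2 + sp T < t := by
        by_contra h
        exact hnS ⟨ht.1, not_lt.1 h⟩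
      exact ⟨by linarith [hu'.1], by linarith [hu'.2, ht.2]⟩
    have hj1 : ∀ j ∈ Sc k L, |NX (XX T ((1 + k) ^ j)) u - ((1 + k) ^ j - SS (XX T ((1 + k) ^ j)) u)| ≤
        (Cl + Cm) * L ^ (-(k / 4)) := by
      intro j hj
      have h1 : |NX (XX T ((1 + k) ^ j)) u - (MM (XX T ((1 + k) ^ j)) u - SS (XX T ((1 + k) ^ j)) u)| ≤ Cl * L ^ (-(k / 4)) := by
        refine le_trans ?_ (hE1 j hj)
        by_contra h
        exact hnE j hj ((hE j hj).2 t ht u hu (not_le.1 h))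
      have h2 : |MM (XX T ((1 + k) ^ j)) u - (1 + k) ^ j| ≤ Cm * L ^ (-(k / 4)) := by
        refine (hmm T ((1 + k) ^ j) u hTm (hM j hj).2.2 (hM j hj).2.1 huJ).trans (mul_le_mul_of_nonneg_left ?_ hCm.le)
        calc (1 + k) ^ j / Real.log T ≤ L ^ (1 - k) / Real.log T := div_le_div_of_nonneg_right (hmem j hj).2 hlT.le
          _ ≤ L ^ (1 - k) / L := div_le_div_of_nonneg_left (by positivity) hL0 hLT
          _ = L ^ (-k) := by
              rw [div_eq_mul_inv, ← Real.rpow_neg_one L, ← Real.rpow_add hL0]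
              congr 1
              ring
          _ ≤ _ := Real.rpow_le_rpow_of_exponent_le hL1 (by linarith)
      have h3 : NX (XX T ((1 + k) ^ j)) u - ((1 + k) ^ j - SS (XX T ((1 + k) ^ j)) u) =
          (NX (XX T ((1 + k) ^ j)) u - (MM (XX T ((1 + k) ^ j)) u - SS (XX T ((1 + k) ^ j)) u)) +
          (MM (XX T ((1 + k) ^ j)) u - (1 + k) ^ j) := by ring
      rw [h3]
      calc _ ≤ |NX (XX T ((1 + k) ^ j)) u - (MM (XX T ((1 + k) ^ j)) u - SS (XX T ((1 + k) ^ j)) u)| +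
            |MM (XX T ((1 + k) ^ j)) u - (1 + k) ^ j| := abs_add_le _ _
        _ ≤ _ := by linarith
    have h4 : Tk k T L u - (Mk k L - Sk k T L u) =
        wk k L * ∑ j ∈ Sc k L, (NX (XX T ((1 + k) ^ j)) u - ((1 + k) ^ j - SS (XX T ((1 + k) ^ j)) u)) := by
      rw [tot_eq (by linarith : 1 < T)]
      unfold Mk Sk
      rw [← mul_sub, ← mul_sub, ← Finset.sum_sub_distrib, ← Finset.sum_sub_distrib]
    have h5 : |Tk k T L u - (Mk k L - Sk k T L u)| ≤ 3 / 2 * ((Cl + Cm) * L ^ (-(k / 4))) := by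
      rw [h4, abs_mul, abs_of_pos hwJ0]
      calc wk k L * |∑ j ∈ Sc k L, (NX (XX T ((1 + k) ^ j)) u - ((1 + k) ^ j - SS (XX T ((1 + k) ^ j)) u))|
          ≤ wk k L * ∑ j ∈ Sc k L, ((Cl + Cm) * L ^ (-(k / 4))) := by
            refine mul_le_mul_of_nonneg_left ((Finset.abs_sum_le_sum_abs _ _).trans (Finset.sum_le_sum hj1)) hwJ0.le
        _ = (wk k L * (Sc k L).card) * ((Cl + Cm) * L ^ (-(k / 4))) := by
            rw [Finset.sum_const, nsmul_eq_mul]
            ring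
        _ = _ := by rw [hwJ]
    have h6 : 3 / 2 * ((Cl + Cm) * L ^ (-(k / 4))) ≤ CC * L ^ (-(k / 4)) := by
      calc 3 / 2 * ((Cl + Cm) * L ^ (-(k / 4))) = (3 / 2 * (Cl + Cm)) * L ^ (-(k / 4)) := by ring
        _ ≤ _ := mul_le_mul_of_nonneg_right hC2 (by positivity)
    exact absurd (lt_of_lt_of_le hbad (h5.trans h6)) (lt_irrefl _)

end Pool.Agent.Helper60.NS
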