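import Pool.Agent.Helper60.NS.Tot
import Pool.Agent.Helper99.NS.Sc
import Pool.Agent.Helper69.NS.Loss
import Pool.Agent.Helper69.NR.Loss

/-!
# NS: the linear statistic against the prime sum, without hypotheses
-/

set_option autoImplicit false
open Pool.Agent.Helper57.NS

namespace Pool.Agent.Helper60.NS

/-- E1 -/
theorem tot_thick {k : ℝ} (hk : 0 < k) (hk8 : k ≤ 1 / 8) : ∃ c C T₀ : ℝ, 0 < c ∧ 1 ≤ C ∧ ∀ T L : ℝ, T₀ ≤ T → C ≤ L →
    L ≤ Real.log T → Thick T (C * L ^ (-4 : ℝ)) (C * L ^ (-c)) (fun u => Tk k T L u - (Mk k L - Sk k T L u)) :=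
  tot_thick_of hk hk8 (Pool.Agent.Helper99.NS.card_bd hk hk8) Pool.Agent.Helper69.NS.loss_thick
    Pool.Agent.Helper69.NR.mm_main69 (Pool.Agent.Helper99.NS.tot_eq hk)

end Pool.Agent.Helper60.NS
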